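import Mathlib
import Pool.Agent.H892.KT.Stm

set_option autoImplicit false

namespace Pool.Agent.H308.KT

open Pool.Agent.H892.KT

theorem t_VDM : S_VDM := by
  intro M _ _ S k v hv j hj
  set V : Matrix (Fin (k + 1)) (Fin (k + 1)) ℂ :=
    Matrix.vandermonde (fun i : Fin (k + 1) => ((i : ℕ) : ℂ)) with hV
  have hdet : V.det ≠ 0 := by
    rw [hV, Matrix.det_vandermonde_ne_zero_iff]
    intro a b hab
    have : ((a : ℕ) : ℂ) = ((b : ℕ) : ℂ) := hab
    exact Fin.ext (by exact_mod_cast this)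
  have hinv : V⁻¹ * V = 1 := Matrix.nonsing_inv_mul V (isUnit_iff_ne_zero.2 hdet)
  let j' : Fin (k + 1) := ⟨j, by omega⟩
  have key : v j = ∑ i : Fin (k + 1), V⁻¹ j' i •
      ∑ l ∈ Finset.range (k + 1), ((i : ℕ) : ℂ) ^ l • v l := by
    have h1 : ∀ i : Fin (k + 1), ∑ l ∈ Finset.range (k + 1), ((i : ℕ) : ℂ) ^ l • v l =
        ∑ l : Fin (k + 1), V i l • v l := by
      intro i
      rw [Finset.sum_range]
      rfl
    simp_rw [h1, Finset.smul_sum, smul_smul]
    rw [Finset.sum_comm]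
    simp_rw [← Finset.sum_smul]
    have h2 : ∀ l : Fin (k + 1), ∑ i : Fin (k + 1), V⁻¹ j' i * V i l =
        (1 : Matrix (Fin (k + 1)) (Fin (k + 1)) ℂ) j' l := by
      intro l
      rw [← hinv, Matrix.mul_apply]
    simp_rw [h2]
    rw [Finset.sum_eq_single j']
    · rw [Matrix.one_apply_eq, one_smul]
    · intro l _ hl
      rw [Matrix.one_apply_ne hl.symm, zero_smul]
    · intro h
      exact absurd (Finset.mem_univ _) h
  rw [key]
  exact S.sum_mem fun i _ => S.smul_mem _ (hv _)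

end Pool.Agent.H308.KT
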